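import Pool.Agent.P.MP_0f3a14_an.Defs

/-! The renorming of c_0 and its norming set of functionals. -/

open scoped ZeroAtInfty BoundedContinuousFunction
open Filter RCLike

namespace Pool.Agent.P.MP_0f3a14_an

variable (𝕜 : Type) [RCLike 𝕜]

/-- the base space c_0 -/
abbrev E := C₀(ℕ, 𝕜)

variable {𝕜}

/-- a finitely supported sequence as an element of c_0 -/
def vec (f : ℕ → 𝕜) (N : ℕ) (h : ∀ n, N ≤ n → f n = 0) : E 𝕜 where
  toFun := f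
  continuous_toFun := continuous_of_discreteTopology
  zero_at_infty' := by
    rw [cocompact_eq_atTop]
    exact tendsto_const_nhds.congr' (eventually_atTop.mpr ⟨N, fun n hn => (h n hn).symm⟩)

theorem apply_le (y : E 𝕜) (n : ℕ) : ‖y n‖ ≤ ‖y‖ := by
  rw [← ZeroAtInftyContinuousMap.norm_toBCF_eq_norm]
  exact y.toBCF.norm_coe_le_norm n

theorem norm_le_of (y : E 𝕜) (C : ℝ) (hC : 0 ≤ C) (h : ∀ n, ‖y n‖ ≤ C) : ‖y‖ ≤ C := by
  rw [← ZeroAtInftyContinuousMap.norm_toBCF_eq_norm]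
  exact (BoundedContinuousFunction.norm_le hC).mpr h

variable (𝕜)

/-- coordinate functional -/
noncomputable def ev (n : ℕ) : E 𝕜 →L[𝕜] 𝕜 :=
  LinearMap.mkContinuous
    { toFun := fun y => y n
      map_add' := fun _ _ => rfl
      map_smul' := fun _ _ => rfl } 1 (fun y => by simpa using apply_le y n)

@[simp] theorem ev_apply (n : ℕ) (y : E 𝕜) : ev 𝕜 n y = y n := rfl

/-- the point -/
def x0 : E 𝕜 := vec (fun n => if n = 0 then 1 else 0) 1 (fun n hn => if_neg (by omega))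

/-- the summing basis -/
def s (i : ℕ) : E 𝕜 :=
  vec (fun n => if 1 ≤ n ∧ n ≤ i + 1 then 1 else 0) (i + 2) (fun n hn => if_neg (by omega))

theorem x0_apply (n : ℕ) : x0 𝕜 n = if n = 0 then 1 else 0 := rfl
theorem s_apply (i n : ℕ) : s 𝕜 i n = if 1 ≤ n ∧ n ≤ i + 1 then 1 else 0 := rfl

@[simp] theorem x0_zero : x0 𝕜 0 = 1 := by simp [x0_apply]
@[simp] theorem x0_succ (n : ℕ) : x0 𝕜 (n + 1) = 0 := by simp [x0_apply]
@[simp] theorem s_zero (i : ℕ) : s 𝕜 i 0 = 0 := by simp [s_apply]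
@[simp] theorem s_one (i : ℕ) : s 𝕜 i 1 = 1 := by simp [s_apply]
theorem s_succ (i n : ℕ) : s 𝕜 i (n + 1) = if n ≤ i then 1 else 0 := by simp [s_apply]

theorem s_diff (i j : ℕ) : s 𝕜 j (i + 1) - s 𝕜 j (i + 2) = if i = j then 1 else 0 := by
  rw [s_succ, s_succ]
  split_ifs <;> first | omega | simp

/-- the generators -/
noncomputable def g (i : ℕ) : E 𝕜 := x0 𝕜 + ((-1 : 𝕜) ^ i) • s 𝕜 i

theorem g_apply (i n : ℕ) : g 𝕜 i n = x0 𝕜 n + (-1) ^ i * s 𝕜 i n := rfl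

/-- the norming set -/
def Phi : Set (E 𝕜 →L[𝕜] 𝕜) :=
  {φ | ‖φ (x0 𝕜)‖ ≤ 1 ∧ (∀ i, ‖φ (g 𝕜 i)‖ ≤ 1) ∧ (∀ i j, ‖φ (s 𝕜 i - s 𝕜 j)‖ ≤ 2) ∧
    ∀ y, ‖φ y‖ ≤ 8 * ‖y‖}

variable {𝕜}

theorem Phi_smul {φ : E 𝕜 →L[𝕜] 𝕜} (h : φ ∈ Phi 𝕜) (c : 𝕜) (hc : ‖c‖ = 1) : c • φ ∈ Phi 𝕜 := by
  obtain ⟨h1, h2, h3, h4⟩ := h
  refine ⟨?_, fun i => ?_, fun i j => ?_, fun y => ?_⟩ <;>
    rw [_root_.smul_apply, norm_smul, hc, one_mul]
  exacts [h1, h2 i, h3 i j, h4 y]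

theorem sgn_cases (i : ℕ) : ((-1 : 𝕜) ^ i = 1) ∨ ((-1 : 𝕜) ^ i = -1) := neg_one_pow_eq_or 𝕜 i

theorem norm_ite (p : Prop) [Decidable p] : ‖(if p then 1 else 0 : 𝕜)‖ ≤ 1 := by
  split_ifs <;> simp

theorem norm_ite_sub (p q : Prop) [Decidable p] [Decidable q] :
    ‖(if p then 1 else 0 : 𝕜) - (if q then 1 else 0 : 𝕜)‖ ≤ 1 := by
  split_ifs <;> simp

theorem ev_mem (n : ℕ) : ev 𝕜 n ∈ Phi 𝕜 := by
  refine ⟨?_, fun i => ?_, fun i j => ?_, fun y => ?_⟩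
  · exact norm_ite _
  · rw [ev_apply, g_apply]
    rcases n with _ | n
    · simp
    · rw [x0_succ, zero_add, norm_mul, norm_pow, norm_neg, norm_one, one_pow, one_mul]
      exact norm_ite _
  · exact (norm_ite_sub _ _).trans (by norm_num)
  · have := apply_le y n
    have := norm_nonneg y
    rw [ev_apply]
    linarith

variable (𝕜)
/-- the functionals that see the generators at distance two -/
noncomputable def fn (i : ℕ) : E 𝕜 →L[𝕜] 𝕜 :=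
  ev 𝕜 0 - (2 * (-1 : 𝕜) ^ i) • (ev 𝕜 (i + 1) - ev 𝕜 (i + 2))

/-- the functionals of the two slices -/
noncomputable def hn (σ : 𝕜) : E 𝕜 →L[𝕜] 𝕜 := (1 / 2 : 𝕜) • (ev 𝕜 0 + σ • ev 𝕜 1)
variable {𝕜}

theorem fn_apply (i : ℕ) (y : E 𝕜) :
    fn 𝕜 i y = y 0 - 2 * (-1 : 𝕜) ^ i * (y (i + 1) - y (i + 2)) := rfl

theorem hn_apply (σ : 𝕜) (y : E 𝕜) : hn 𝕜 σ y = 1 / 2 * (y 0 + σ * y 1) := rfl

theorem fn_x0 (i : ℕ) : fn 𝕜 i (x0 𝕜) = 1 := by simp [fn_apply]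

theorem fn_s (i j : ℕ) : fn 𝕜 i (s 𝕜 j) = -(2 * (-1 : 𝕜) ^ i * if i = j then 1 else 0) := by
  rw [fn_apply, s_diff]; simp

theorem fn_g (i j : ℕ) : fn 𝕜 i (g 𝕜 j) = if i = j then -1 else 1 := by
  rw [g, map_add, map_smul, fn_x0, fn_s]
  split_ifs with h
  · subst h
    rcases sgn_cases (𝕜 := 𝕜) i with h | h <;> rw [h] <;> norm_num
  · simp

theorem fn_mem (i : ℕ) : fn 𝕜 i ∈ Phi 𝕜 := by
  refine ⟨by simp [fn_x0], fun j => ?_, fun j k => ?_, fun y => ?_⟩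
  · rw [fn_g]; split_ifs <;> simp
  · rw [map_sub, fn_s, fn_s]
    have : -(2 * (-1 : 𝕜) ^ i * if i = j then 1 else 0) - -(2 * (-1 : 𝕜) ^ i * if i = k then 1 else 0)
        = 2 * (-1 : 𝕜) ^ i * ((if i = k then 1 else 0) - (if i = j then 1 else 0)) := by ring
    rw [this, norm_mul, norm_mul, norm_pow, norm_neg, norm_one, one_pow, mul_one, RCLike.norm_two]
    have := norm_ite_sub (𝕜 := 𝕜) (i = k) (i = j)
    linarith
  · rw [fn_apply]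
    have h0 := apply_le y 0
    have h1 := apply_le y (i + 1)
    have h2 := apply_le y (i + 2)
    have h3 := norm_sub_le (y (i + 1)) (y (i + 2))
    have h4 := norm_sub_le (y 0) (2 * (-1 : 𝕜) ^ i * (y (i + 1) - y (i + 2)))
    rw [norm_mul, norm_mul, norm_pow, norm_neg, norm_one, one_pow, mul_one, RCLike.norm_two] at h4
    have := norm_nonneg y
    linarith

theorem hn_x0 (σ : 𝕜) : hn 𝕜 σ (x0 𝕜) = 1 / 2 := by
  rw [hn_apply, x0_zero, x0_succ]; simp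

theorem hn_g (σ : 𝕜) (i : ℕ) : hn 𝕜 σ (g 𝕜 i) = 1 / 2 * (1 + σ * (-1) ^ i) := by
  rw [hn_apply, g_apply, g_apply, x0_zero, x0_succ]; simp

theorem hn_s (σ : 𝕜) (i j : ℕ) : hn 𝕜 σ (s 𝕜 i - s 𝕜 j) = 0 := by
  rw [map_sub, hn_apply, hn_apply]; simp

theorem norm_half : ‖(1 / 2 : 𝕜)‖ = 1 / 2 := by
  rw [norm_div, norm_one, RCLike.norm_two]

theorem hn_le (σ : 𝕜) (hσ : σ = 1 ∨ σ = -1) (y : E 𝕜) : ‖hn 𝕜 σ y‖ ≤ ‖y‖ := by
  have hs : ‖σ‖ = 1 := by rcases hσ with h | h <;> simp [h]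
  rw [hn_apply, norm_mul, norm_half]
  have h0 := apply_le y 0
  have h1 := apply_le y 1
  have h2 := norm_add_le (y 0) (σ * y 1)
  rw [norm_mul, hs, one_mul] at h2
  linarith

theorem hn_mem (σ : 𝕜) (hσ : σ = 1 ∨ σ = -1) : hn 𝕜 σ ∈ Phi 𝕜 := by
  refine ⟨?_, fun j => ?_, fun j k => ?_, fun y => ?_⟩
  · rw [hn_x0, norm_half]; norm_num
  · rw [hn_g]
    rcases hσ with h | h <;> rcases sgn_cases (𝕜 := 𝕜) j with h' | h' <;> rw [h, h'] <;> norm_num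
  · rw [hn_s]; simp
  · have := hn_le σ hσ y
    have := norm_nonneg y
    linarith

theorem norm_shift (a : 𝕜) (t : ℝ) : ‖-a + (t : 𝕜)‖ ^ 2 = ‖a‖ ^ 2 - 2 * t * re a + t ^ 2 := by
  rw [RCLike.norm_sq_eq_def, RCLike.norm_sq_eq_def]
  simp
  ring

/-- The key certificate. -/
theorem key (σ : 𝕜) (hσ : σ = 1 ∨ σ = -1) {φ : E 𝕜 →L[𝕜] 𝕜} (hφ : φ ∈ Phi 𝕜)
    (hx : 63 / 64 ≤ re (φ (x0 𝕜))) (hg : ∀ i, (-1 : 𝕜) ^ i = σ → -1 / 64 ≤ re (φ (g 𝕜 i))) :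
    ((8 / 9 : ℝ) : 𝕜) • (-φ + (1 / 2 : 𝕜) • hn 𝕜 σ) ∈ Phi 𝕜 := by
  obtain ⟨h1, h2, h3, h4⟩ := hφ
  have e : ∀ y, ‖(((8 / 9 : ℝ) : 𝕜) • (-φ + (1 / 2 : 𝕜) • hn 𝕜 σ)) y‖ =
      8 / 9 * ‖-φ y + 1 / 2 * hn 𝕜 σ y‖ := by
    intro y
    rw [_root_.smul_apply, norm_smul, RCLike.norm_ofReal, abs_of_pos (by norm_num)]
    rfl
  refine ⟨?_, fun j => ?_, fun j k => ?_, fun y => ?_⟩ <;> rw [e]
  · have : (1 / 2 * hn 𝕜 σ (x0 𝕜) : 𝕜) = ((1 / 4 : ℝ) : 𝕜) := by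
      rw [hn_x0]; push_cast; norm_num
    rw [this]
    have h5 := norm_shift (φ (x0 𝕜)) (1 / 4)
    have h6 : ‖φ (x0 𝕜)‖ ^ 2 ≤ 1 := by
      have := norm_nonneg (φ (x0 𝕜))
      nlinarith
    have h7 : ‖-φ (x0 𝕜) + ((1 / 4 : ℝ) : 𝕜)‖ ≤ 9 / 8 := by
      apply le_of_sq_le_sq _ (by norm_num) |>.trans le_rfl
      nlinarith
    linarith
  · by_cases hj : (-1 : 𝕜) ^ j = σ
    · have : (1 / 2 * hn 𝕜 σ (g 𝕜 j) : 𝕜) = ((1 / 2 : ℝ) : 𝕜) := by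
        rw [hn_g, hj]
        push_cast
        rcases hσ with h | h <;> rw [h] <;> norm_num
      rw [this]
      have h5 := norm_shift (φ (g 𝕜 j)) (1 / 2)
      have h6 : ‖φ (g 𝕜 j)‖ ^ 2 ≤ 1 := by
        have := norm_nonneg (φ (g 𝕜 j))
        have := h2 j
        nlinarith
      have h8 := hg j hj
      have h7 : ‖-φ (g 𝕜 j) + ((1 / 2 : ℝ) : 𝕜)‖ ≤ 9 / 8 := by
        apply le_of_sq_le_sq _ (by norm_num) |>.trans le_rfl
        nlinarith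
      linarith
    · have : hn 𝕜 σ (g 𝕜 j) = 0 := by
        rw [hn_g]
        rcases hσ with h | h <;> rcases sgn_cases (𝕜 := 𝕜) j with h' | h'
        · exact absurd (h'.trans h.symm) hj
        · rw [h, h']; norm_num
        · rw [h, h']; norm_num
        · exact absurd (h'.trans h.symm) hj
      rw [this, mul_zero, add_zero, norm_neg]
      have := h2 j
      linarith
  · rw [hn_s, mul_zero, add_zero, norm_neg]
    have := h3 j k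
    linarith
  · have h5 := norm_add_le (-φ y) (1 / 2 * hn 𝕜 σ y)
    rw [norm_neg, norm_mul, norm_half] at h5
    have := hn_le σ hσ y
    have := h4 y
    have := norm_nonneg y
    linarith

/-- `y` lies in the new unit ball -/
def InB (y : E 𝕜) : Prop := ∀ φ ∈ Phi 𝕜, ‖φ y‖ ≤ 1

theorem key2 (σ : 𝕜) (hσ : σ = 1 ∨ σ = -1) {φ : E 𝕜 →L[𝕜] 𝕜} (hφ : φ ∈ Phi 𝕜)
    (hx : 63 / 64 ≤ re (φ (x0 𝕜))) (hg : ∀ i, (-1 : 𝕜) ^ i = σ → -1 / 64 ≤ re (φ (g 𝕜 i)))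
    {y : E 𝕜} (hy : InB y) (hy' : 3 / 8 < re (hn 𝕜 σ y)) : -15 / 16 ≤ re (φ y) := by
  have h1 := (RCLike.re_le_norm _).trans (hy _ (key σ hσ hφ hx hg))
  have e : (((8 / 9 : ℝ) : 𝕜) • (-φ + (1 / 2 : 𝕜) • hn 𝕜 σ)) y =
      ((8 / 9 : ℝ) : 𝕜) * (-φ y + ((1 / 2 : ℝ) : 𝕜) * hn 𝕜 σ y) := by
    push_cast
    rfl
  rw [e, RCLike.re_ofReal_mul, map_add, map_neg, RCLike.re_ofReal_mul] at h1
  linarith

theorem far_re {y y' : E 𝕜} (hy : InB y) (hy' : InB y') (h1 : 3 / 8 < re (hn 𝕜 1 y))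
    (h2 : 3 / 8 < re (hn 𝕜 (-1) y')) {φ : E 𝕜 →L[𝕜] 𝕜} (hφ : φ ∈ Phi 𝕜) :
    re (φ (x0 𝕜 - (((1 / 2 : ℝ) : 𝕜) • y + ((1 / 2 : ℝ) : 𝕜) • y'))) ≤ 2 - 1 / 64 := by
  rw [map_sub, map_add, map_smul, map_smul, smul_eq_mul, smul_eq_mul, map_sub, map_add,
    RCLike.re_ofReal_mul, RCLike.re_ofReal_mul]
  have a1 := (abs_le.mp ((RCLike.abs_re_le_norm _).trans (hy φ hφ))).1
  have a2 := (abs_le.mp ((RCLike.abs_re_le_norm _).trans (hy' φ hφ))).1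
  have a3 := (RCLike.re_le_norm _).trans hφ.1
  by_cases hx : 63 / 64 ≤ re (φ (x0 𝕜))
  swap
  · linarith
  by_cases hg : ∀ i, (-1 : 𝕜) ^ i = 1 → -1 / 64 ≤ re (φ (g 𝕜 i))
  · have := key2 1 (Or.inl rfl) hφ hx hg hy h1
    linarith
  · push Not at hg
    obtain ⟨i, hi, hi'⟩ := hg
    have hg' : ∀ j, (-1 : 𝕜) ^ j = -1 → -1 / 64 ≤ re (φ (g 𝕜 j)) := by
      intro j hj
      have e : g 𝕜 i + g 𝕜 j = x0 𝕜 + x0 𝕜 + (s 𝕜 i - s 𝕜 j) := by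
        rw [g, g, hi, hj]; module
      have e2 := congrArg (fun z => re (φ z)) e
      simp only [map_add φ, map_add re] at e2
      have a4 := (abs_le.mp ((RCLike.abs_re_le_norm _).trans (hφ.2.2.1 i j))).1
      linarith
    have := key2 (-1) (Or.inr rfl) hφ hx hg' hy' h2
    linarith

theorem far {y y' : E 𝕜} (hy : InB y) (hy' : InB y') (h1 : 3 / 8 < re (hn 𝕜 1 y))
    (h2 : 3 / 8 < re (hn 𝕜 (-1) y')) {φ : E 𝕜 →L[𝕜] 𝕜} (hφ : φ ∈ Phi 𝕜) :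
    ‖φ (x0 𝕜 - (((1 / 2 : ℝ) : 𝕜) • y + ((1 / 2 : ℝ) : 𝕜) • y'))‖ ≤ 2 - 1 / 64 := by
  obtain ⟨c, hc, hc'⟩ := RCLike.exists_norm_eq_mul_self
    (φ (x0 𝕜 - (((1 / 2 : ℝ) : 𝕜) • y + ((1 / 2 : ℝ) : 𝕜) • y')))
  have := far_re hy hy' h1 h2 (Phi_smul hφ c hc)
  rwa [_root_.smul_apply, smul_eq_mul, ← hc', RCLike.ofReal_re] at this

theorem eq_one_of (a b : 𝕜) (t : ℝ) (ha : ‖a‖ ≤ 1) (hb : ‖b‖ ≤ 1) (h0 : 0 < t) (h1 : t < 1)
    (h : (1 : 𝕜) = (t : 𝕜) * a + ((1 - t : ℝ) : 𝕜) * b) : a = 1 := by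
  have e := congrArg re h
  rw [map_add, RCLike.re_ofReal_mul, RCLike.re_ofReal_mul, RCLike.one_re] at e
  have a1 := (RCLike.re_le_norm a).trans ha
  have a2 := (RCLike.re_le_norm b).trans hb
  have a3 : re a = 1 := by nlinarith
  have a4 := norm_shift a 1
  have a5 : ‖a‖ ^ 2 ≤ 1 := by
    have := norm_nonneg a
    nlinarith
  have a6 : ‖-a + ((1 : ℝ) : 𝕜)‖ ^ 2 ≤ 0 := by nlinarith
  have a7 : -a + ((1 : ℝ) : 𝕜) = 0 :=
    norm_eq_zero.mp (pow_eq_zero_iff (two_ne_zero) |>.mp (le_antisymm a6 (sq_nonneg _)))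
  rw [RCLike.ofReal_one] at a7
  linear_combination -a7

theorem extreme_base {y z : E 𝕜} (hy : InB y) (hz : InB z) (t : ℝ) (h0 : 0 < t) (h1 : t < 1)
    (h : x0 𝕜 = (t : 𝕜) • y + ((1 - t : ℝ) : 𝕜) • z) : y = x0 𝕜 := by
  have k : ∀ φ ∈ Phi 𝕜, φ (x0 𝕜) = 1 → φ y = 1 := by
    intro φ hφ e
    refine eq_one_of _ (φ z) t (hy φ hφ) (hz φ hφ) h0 h1 ?_
    rw [← e, h, map_add, map_smul, map_smul, smul_eq_mul, smul_eq_mul]
  have k0 : y 0 = 1 := k _ (ev_mem 0) (by simp)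
  have k1 : ∀ i, y (i + 2) = y (i + 1) := by
    intro i
    have := k _ (fn_mem i) (fn_x0 i)
    rw [fn_apply, k0] at this
    have e : 2 * (-1 : 𝕜) ^ i * (y (i + 1) - y (i + 2)) = 0 := by linear_combination -this
    have e2 : (2 * (-1 : 𝕜) ^ i) ≠ 0 := by simp
    have := (mul_eq_zero.mp e).resolve_left e2
    linear_combination -this
  have k2 : ∀ i, y (i + 1) = y 1 := by
    intro i
    induction i with
    | zero => rfl
    | succ i ih => rw [k1, ih]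
  have k3 : y 1 = 0 := by
    have l1 : Tendsto y atTop (nhds 0) := by
      have := y.zero_at_infty'
      rwa [cocompact_eq_atTop] at this
    have l2 : Tendsto (fun i => y (i + 1)) atTop (nhds 0) := (tendsto_add_atTop_iff_nat 1).mpr l1
    simp only [k2] at l2
    exact tendsto_nhds_unique tendsto_const_nhds l2
  ext n
  rcases n with _ | n
  · simp [k0]
  · rw [k2, k3, x0_succ]

theorem alt_sum (a n : ℕ) : (2 : 𝕜) * ∑ i ∈ Finset.range n, (-1 : 𝕜) ^ i * (if a ≤ i then 1 else 0)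
    = if n ≤ a then 0 else (-1) ^ a - (-1) ^ n := by
  induction n with
  | zero => simp
  | succ n ih =>
    rw [Finset.sum_range_succ, mul_add, ih]
    by_cases h1 : n + 1 ≤ a
    · rw [if_pos h1, if_pos (by omega), if_neg (by omega)]; simp
    · rw [if_neg h1, if_pos (show a ≤ n by omega)]
      by_cases h2 : n ≤ a
      · have : a = n := by omega
        subst this
        rw [if_pos le_rfl]; ring
      · rw [if_neg h2]; ring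

theorem sum_norm_le (n : ℕ) : ‖∑ i ∈ Finset.range n, (g 𝕜 i - x0 𝕜)‖ ≤ 1 := by
  refine norm_le_of _ _ zero_le_one fun m => ?_
  have e : (∑ i ∈ Finset.range n, (g 𝕜 i - x0 𝕜)) m =
      ∑ i ∈ Finset.range n, (-1 : 𝕜) ^ i * s 𝕜 i m := by
    rw [← ev_apply, map_sum]
    refine Finset.sum_congr rfl fun i _ => ?_
    rw [map_sub, ev_apply, ev_apply, g_apply]; ring
  rw [e]
  rcases m with _ | m
  · simp
  · simp only [s_succ]
    have h := congrArg norm (alt_sum (𝕜 := 𝕜) m n)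
    rw [norm_mul, RCLike.norm_two] at h
    have h2 : ‖(if n ≤ m then 0 else (-1) ^ m - (-1) ^ n : 𝕜)‖ ≤ 2 := by
      split_ifs
      · simp
      · refine (norm_sub_le _ _).trans ?_
        simp only [norm_pow, norm_neg, norm_one, one_pow]
        norm_num
    linarith

end Pool.Agent.P.MP_0f3a14_an
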