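import Mathlib

/-! Slices, convex combinations of slices and the three kinds of Delta-points. -/

namespace Pool.Agent.P.MP_0f3a14_an

variable (𝕜 : Type) [RCLike 𝕜] {X : Type} [NormedAddCommGroup X] [NormedSpace 𝕜 X]

/-- `S` is a slice `S(f, α)` of the closed unit ball. -/
def IsSlice (S : Set X) : Prop :=
  ∃ (f : X →L[𝕜] 𝕜) (α : ℝ), f ≠ 0 ∧ 0 < α ∧
    S = {y | ‖y‖ ≤ 1 ∧ ‖f‖ - α < RCLike.re (f y)}

/-- `C` is a convex combination of slices of the closed unit ball. -/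
def IsCCS (C : Set X) : Prop :=
  ∃ (n : ℕ) (S : Fin n → Set X) (c : Fin n → ℝ), (∀ i, IsSlice 𝕜 (S i)) ∧ (∀ i, 0 < c i) ∧
    ∑ i, c i = 1 ∧ C = {z | ∃ y : Fin n → X, (∀ i, y i ∈ S i) ∧ z = ∑ i, ((c i : ℝ) : 𝕜) • y i}

/-- `W` is a relatively weakly open subset of the closed unit ball. -/
def IsRelWeakOpen (W : Set X) : Prop :=
  ∃ U : Set (WeakSpace 𝕜 X), IsOpen U ∧ W = {y | ‖y‖ ≤ 1 ∧ toWeakSpace 𝕜 X y ∈ U}

/-- `x` is a Delta-point. -/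
def IsDelta (x : X) : Prop :=
  ‖x‖ = 1 ∧ ∀ S, IsSlice 𝕜 S → x ∈ S → sSup ((fun y => ‖x - y‖) '' S) = 2

/-- `x` is a super Delta-point. -/
def IsSuperDelta (x : X) : Prop :=
  ‖x‖ = 1 ∧ ∀ W, IsRelWeakOpen 𝕜 W → x ∈ W → sSup ((fun y => ‖x - y‖) '' W) = 2

/-- `x` is a ccs Delta-point. -/
def IsCCSDelta (x : X) : Prop :=
  ‖x‖ = 1 ∧ ∀ C, IsCCS 𝕜 C → x ∈ C → sSup ((fun y => ‖x - y‖) '' C) = 2

/-- `x` is an extreme point of the closed unit ball. -/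
def IsExtremeBall (x : X) : Prop :=
  ‖x‖ ≤ 1 ∧ ∀ (y z : X) (t : ℝ), ‖y‖ ≤ 1 → ‖z‖ ≤ 1 → 0 < t → t < 1 →
    x = ((t : ℝ) : 𝕜) • y + ((1 - t : ℝ) : 𝕜) • z → y = x ∧ z = x

end Pool.Agent.P.MP_0f3a14_an
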