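import Pool.Agent.P.MP_0f3a14_an.Base

/-! The Banach space and the three properties of the point. -/

open scoped ZeroAtInfty BoundedContinuousFunction
open Filter RCLike

namespace Pool.Agent.P.MP_0f3a14_an

variable (𝕜 : Type) [RCLike 𝕜]

/-- evaluation of an element of c_0 on the norming set -/
noncomputable def J : E 𝕜 →ₗ[𝕜] (Phi 𝕜 →ᵇ 𝕜) where
  toFun y := BoundedContinuousFunction.ofNormedAddCommGroup (fun φ : Phi 𝕜 => φ.1 y)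
    (by fun_prop) (8 * ‖y‖) (fun φ => φ.2.2.2.2 y)
  map_add' y z := by ext φ; simp
  map_smul' c y := by ext φ; simp

variable {𝕜}

theorem J_apply (y : E 𝕜) (φ : Phi 𝕜) : J 𝕜 y φ = φ.1 y := rfl

theorem J_le (y : E 𝕜) (C : ℝ) (hC : 0 ≤ C) (h : ∀ φ ∈ Phi 𝕜, ‖φ y‖ ≤ C) : ‖J 𝕜 y‖ ≤ C :=
  (BoundedContinuousFunction.norm_le hC).mpr fun φ => h φ.1 φ.2

theorem le_J (y : E 𝕜) {φ : E 𝕜 →L[𝕜] 𝕜} (h : φ ∈ Phi 𝕜) : ‖φ y‖ ≤ ‖J 𝕜 y‖ :=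
  (J 𝕜 y).norm_coe_le_norm ⟨φ, h⟩

theorem J_upper (y : E 𝕜) : ‖J 𝕜 y‖ ≤ 8 * ‖y‖ :=
  J_le y _ (by positivity) fun φ h => h.2.2.2 y

theorem J_lower (y : E 𝕜) : ‖y‖ ≤ ‖J 𝕜 y‖ :=
  norm_le_of y _ (norm_nonneg _) fun n => le_J y (ev_mem n)

variable (𝕜)

/-- the Banach space -/
abbrev XX : Type := LinearMap.range (J 𝕜)

theorem closed_range : IsClosed (LinearMap.range (J 𝕜) : Set (Phi 𝕜 →ᵇ 𝕜)) := by
  let Jc : E 𝕜 →L[𝕜] (Phi 𝕜 →ᵇ 𝕜) := (J 𝕜).mkContinuous 8 J_upper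
  have h : AntilipschitzWith 1 Jc :=
    ContinuousLinearMap.antilipschitz_of_bound Jc (fun y => by
      rw [NNReal.coe_one, one_mul]; exact J_lower y)
  exact h.isClosed_range Jc.uniformContinuous

instance : CompleteSpace (XX 𝕜) := (closed_range 𝕜).completeSpace_coe

variable {𝕜}

/-- the isomorphism onto the Banach space -/
noncomputable def T : E 𝕜 →ₗ[𝕜] XX 𝕜 := (J 𝕜).rangeRestrict

theorem T_surj (w : XX 𝕜) : ∃ y, T y = w := (J 𝕜).surjective_rangeRestrict w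

theorem norm_T (y : E 𝕜) : ‖T y‖ = ‖J 𝕜 y‖ := rfl

theorem inB_of {y : E 𝕜} (h : ‖T y‖ ≤ 1) : InB y := fun _ hφ => (le_J y hφ).trans h

/-- evaluation functionals on the Banach space -/
noncomputable def evX (φ : Phi 𝕜) : XX 𝕜 →L[𝕜] 𝕜 :=
  (BoundedContinuousFunction.evalCLM 𝕜 φ).comp (LinearMap.range (J 𝕜)).subtypeL

theorem evX_T (φ : Phi 𝕜) (y : E 𝕜) : evX φ (T y) = φ.1 y := rfl

theorem norm_x0 : ‖T (x0 𝕜)‖ = 1 := by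
  apply le_antisymm
  · exact J_le _ _ zero_le_one fun φ h => h.1
  · have := le_J (x0 𝕜) (ev_mem 0)
    rwa [ev_apply, x0_zero, norm_one] at this

theorem norm_g (i : ℕ) : ‖T (g 𝕜 i)‖ ≤ 1 := J_le _ _ zero_le_one fun _ h => h.2.1 i

theorem norm_x0_g (i : ℕ) : ‖T (x0 𝕜) - T (g 𝕜 i)‖ = 2 := by
  apply le_antisymm
  · have := norm_sub_le (T (x0 𝕜)) (T (g 𝕜 i))
    have := norm_g (𝕜 := 𝕜) i
    rw [norm_x0] at *
    linarith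
  · rw [← map_sub, norm_T]
    have := le_J (x0 𝕜 - g 𝕜 i) (fn_mem i)
    rw [map_sub, fn_x0, fn_g, if_pos rfl] at this
    have e : (1 - -1 : 𝕜) = 2 := by norm_num
    rwa [e, RCLike.norm_two] at this

theorem extreme : IsExtremeBall 𝕜 (T (x0 𝕜)) := by
  refine ⟨norm_x0.le, fun y z t hy hz h0 h1 h => ?_⟩
  obtain ⟨y, rfl⟩ := T_surj y
  obtain ⟨z, rfl⟩ := T_surj z
  have hinj : ∀ a b : E 𝕜, T a = T b → a = b := by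
    intro a b hab
    have h1 := J_lower (a - b)
    rw [← norm_T, map_sub, hab, sub_self, norm_zero] at h1
    exact sub_eq_zero.mp (norm_le_zero_iff.mp h1)
  have h' : x0 𝕜 = (t : 𝕜) • y + ((1 - t : ℝ) : 𝕜) • z := by
    apply hinj
    rw [h, map_add, map_smul, map_smul]
  refine ⟨by rw [extreme_base (inB_of hy) (inB_of hz) t h0 h1 h'], ?_⟩
  rw [extreme_base (inB_of hz) (inB_of hy) (1 - t) (by linarith) (by linarith) (by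
    rw [h', add_comm]; simp)]

theorem delta : IsDelta 𝕜 (T (x0 𝕜)) := by
  refine ⟨norm_x0, ?_⟩
  rintro S ⟨f, α, -, -, rfl⟩ ⟨-, hx⟩
  have hex : ∃ i, ‖f‖ - α < re (f (T (g 𝕜 i))) := by
    by_contra hcon
    push Not at hcon
    set ρ := re (f (T (x0 𝕜))) - (‖f‖ - α) with hρ
    have hρ0 : 0 < ρ := by linarith
    obtain ⟨n, hn⟩ := exists_nat_gt (8 * ‖f‖ / ρ)
    have h1 : re (f (T (∑ i ∈ Finset.range n, (g 𝕜 i - x0 𝕜)))) ≤ -(n * ρ) := by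
      rw [map_sum, map_sum, map_sum]
      have : ∀ i ∈ Finset.range n, re (f (T (g 𝕜 i - x0 𝕜))) ≤ -ρ := by
        intro i _
        rw [map_sub, map_sub, map_sub]
        have := hcon i
        linarith
      have h2 := Finset.sum_le_card_nsmul _ _ _ this
      simpa using h2
    have h3 : ‖T (∑ i ∈ Finset.range n, (g 𝕜 i - x0 𝕜))‖ ≤ 8 := by
      rw [norm_T]
      have := J_upper (∑ i ∈ Finset.range n, (g 𝕜 i - x0 𝕜))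
      have := sum_norm_le (𝕜 := 𝕜) n
      linarith
    have h4 := (abs_le.mp ((RCLike.abs_re_le_norm _).trans
      (f.le_opNorm (T (∑ i ∈ Finset.range n, (g 𝕜 i - x0 𝕜)))))).1
    have h5 := mul_le_mul_of_nonneg_left h3 (norm_nonneg f)
    rw [div_lt_iff₀ hρ0] at hn
    linarith
  obtain ⟨i, hi⟩ := hex
  refine IsGreatest.csSup_eq ⟨⟨T (g 𝕜 i), ⟨norm_g i, hi⟩, norm_x0_g i⟩, ?_⟩
  rintro _ ⟨y, ⟨hy, -⟩, rfl⟩
  have := norm_sub_le (T (x0 𝕜)) y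
  rw [norm_x0] at this
  simp only
  linarith

/-- the two slice functionals -/
noncomputable def hX (σ : 𝕜) (hσ : σ = 1 ∨ σ = -1) : XX 𝕜 →L[𝕜] 𝕜 := evX ⟨hn 𝕜 σ, hn_mem σ hσ⟩

theorem hX_x0 (σ : 𝕜) (hσ : σ = 1 ∨ σ = -1) : re (hX σ hσ (T (x0 𝕜))) = 1 / 2 := by
  rw [hX, evX_T]
  simp only [hn_x0]
  have : (1 / 2 : 𝕜) = ((1 / 2 : ℝ) : 𝕜) := by push_cast; rfl
  rw [this, RCLike.ofReal_re]

theorem slice_hX (σ : 𝕜) (hσ : σ = 1 ∨ σ = -1) :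
    IsSlice 𝕜 {y : XX 𝕜 | ‖y‖ ≤ 1 ∧ 3 / 8 < re (hX σ hσ y)} := by
  have h1 : 1 / 2 ≤ ‖hX σ hσ‖ := by
    have := (RCLike.re_le_norm _).trans ((hX σ hσ).le_opNorm (T (x0 𝕜)))
    rwa [hX_x0, norm_x0, mul_one] at this
  refine ⟨hX σ hσ, ‖hX σ hσ‖ - 3 / 8, ?_, by linarith, by simp⟩
  intro h
  have h2 := hX_x0 σ hσ
  rw [h] at h2
  norm_num at h2

theorem farX {y y' : XX 𝕜} (hy : ‖y‖ ≤ 1) (hy' : ‖y'‖ ≤ 1)
    (h1 : 3 / 8 < re (hX 1 (Or.inl rfl) y)) (h2 : 3 / 8 < re (hX (-1) (Or.inr rfl) y')) :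
    ‖T (x0 𝕜) - (((1 / 2 : ℝ) : 𝕜) • y + ((1 / 2 : ℝ) : 𝕜) • y')‖ ≤ 2 - 1 / 64 := by
  obtain ⟨y, rfl⟩ := T_surj y
  obtain ⟨y', rfl⟩ := T_surj y'
  rw [← map_smul, ← map_smul, ← map_add, ← map_sub, norm_T]
  exact J_le _ _ (by norm_num) fun φ hφ => far (inB_of hy) (inB_of hy') h1 h2 hφ

theorem half_add (y : XX 𝕜) : ((1 / 2 : ℝ) : 𝕜) • y + ((1 / 2 : ℝ) : 𝕜) • y = y := by
  rw [← add_smul, ← RCLike.ofReal_add]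
  norm_num

theorem not_ccs : ¬ IsCCSDelta 𝕜 (T (x0 𝕜)) := by
  rintro ⟨-, h⟩
  let S : Fin 2 → Set (XX 𝕜) := ![{y | ‖y‖ ≤ 1 ∧ 3 / 8 < re (hX 1 (Or.inl rfl) y)},
    {y | ‖y‖ ≤ 1 ∧ 3 / 8 < re (hX (-1) (Or.inr rfl) y)}]
  have hx : T (x0 𝕜) ∈ {z | ∃ y : Fin 2 → XX 𝕜, (∀ i, y i ∈ S i) ∧
      z = ∑ i, (((fun _ => 1 / 2 : Fin 2 → ℝ) i : ℝ) : 𝕜) • y i} := by
    refine ⟨fun _ => T (x0 𝕜), fun i => ?_, ?_⟩
    · fin_cases i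
      · exact ⟨norm_x0.le, by rw [hX_x0]; norm_num⟩
      · exact ⟨norm_x0.le, by rw [hX_x0]; norm_num⟩
    · rw [Fin.sum_univ_two, half_add]
  have h2 := h _ ⟨2, S, fun _ => 1 / 2, fun i => by
      fin_cases i
      · exact slice_hX 1 (Or.inl rfl)
      · exact slice_hX (-1) (Or.inr rfl), fun _ => by norm_num, by simp, rfl⟩ hx
  have h3 : sSup ((fun y => ‖T (x0 𝕜) - y‖) '' {z | ∃ y : Fin 2 → XX 𝕜, (∀ i, y i ∈ S i) ∧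
      z = ∑ i, (((fun _ => 1 / 2 : Fin 2 → ℝ) i : ℝ) : 𝕜) • y i}) ≤ 2 - 1 / 64 := by
    refine csSup_le ⟨_, ⟨_, hx, rfl⟩⟩ ?_
    rintro _ ⟨_, ⟨y, hy, rfl⟩, rfl⟩
    rw [Fin.sum_univ_two]
    exact farX (hy 0).1 (hy 1).1 (hy 0).2 (hy 1).2
  linarith

theorem not_super : ¬ IsSuperDelta 𝕜 (T (x0 𝕜)) := by
  rintro ⟨-, h⟩
  have hc : ∀ f : XX 𝕜 →L[𝕜] 𝕜, Continuous fun w : WeakSpace 𝕜 (XX 𝕜) =>
      re (f ((toWeakSpace 𝕜 (XX 𝕜)).symm w)) := fun f =>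
    RCLike.continuous_re.comp (WeakBilin.eval_continuous (topDualPairing 𝕜 (XX 𝕜)).flip f)
  let U : Set (WeakSpace 𝕜 (XX 𝕜)) :=
    {w | 3 / 8 < re (hX 1 (Or.inl rfl) ((toWeakSpace 𝕜 (XX 𝕜)).symm w))} ∩
    {w | 3 / 8 < re (hX (-1) (Or.inr rfl) ((toWeakSpace 𝕜 (XX 𝕜)).symm w))}
  have hU : IsOpen U :=
    (isOpen_lt continuous_const (hc _)).inter (isOpen_lt continuous_const (hc _))
  have hx : T (x0 𝕜) ∈ {y : XX 𝕜 | ‖y‖ ≤ 1 ∧ toWeakSpace 𝕜 (XX 𝕜) y ∈ U} := by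
    refine ⟨norm_x0.le, ?_, ?_⟩
    · change 3 / 8 < re (hX 1 (Or.inl rfl) (T (x0 𝕜)))
      rw [hX_x0]; norm_num
    · change 3 / 8 < re (hX (-1) (Or.inr rfl) (T (x0 𝕜)))
      rw [hX_x0]; norm_num
  have h2 := h _ ⟨U, hU, rfl⟩ hx
  have h3 : sSup ((fun y => ‖T (x0 𝕜) - y‖) ''
      {y : XX 𝕜 | ‖y‖ ≤ 1 ∧ toWeakSpace 𝕜 (XX 𝕜) y ∈ U}) ≤ 2 - 1 / 64 := by
    refine csSup_le ⟨_, ⟨_, hx, rfl⟩⟩ ?_
    rintro _ ⟨y, ⟨hy, h1, h2⟩, rfl⟩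
    have := farX hy hy h1 h2
    rwa [half_add] at this
  linarith

end Pool.Agent.P.MP_0f3a14_an
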